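import Mathlib

/-!
Definitions for the problem on normal tangential blocks: characteristic polynomial, critical
exponent, tangential blocks, quotients, cycle matroids, simplification, modular flats and
supersolvability.
-/

set_option autoImplicit false

open Matroid

namespace Pool.Agent.MP_dabcc5_co

/-- The rank of a set in a (finite) matroid, as a natural number. -/
noncomputable def rk {α : Type} (M : Matroid α) (X : Set α) : ℕ := (M.eRk X).toNat

/-- The characteristic polynomial: the sum over all subsets `S` of the ground set of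
`(-1) ^ |S| * λ ^ (r - r S)`. -/
noncomputable def charPoly {α : Type} [Finite α] (M : Matroid α) : Polynomial ℤ :=
  ∑ S ∈ (Set.toFinite M.E).toFinset.powerset,
    (-1) ^ S.card * Polynomial.X ^ (rk M M.E - rk M (S : Set α))

/-- No loops and no parallel pairs. -/
def IsSimpleMatroid {α : Type} (M : Matroid α) : Prop :=
  ∀ e ∈ M.E, ∀ f ∈ M.E, M.Indep {e, f}

/-- Representability over the field `F`. -/
def IsRepresentable {α : Type} (F : Type) [Field F] (M : Matroid α) : Prop :=
  ∃ (n : ℕ) (v : α → (Fin n → F)), ∀ I ⊆ M.E, (M.Indep I ↔ LinearIndepOn F v I)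

/-- `c` is the least positive integer with `p(M; q ^ c) > 0`. -/
def IsCriticalExponent {α : Type} [Finite α] (q : ℕ) (M : Matroid α) (c : ℕ) : Prop :=
  IsLeast {d : ℕ | 0 < d ∧ 0 < (charPoly M).eval ((q : ℤ) ^ d)} c

/-- Tangential `k`-block over the finite field `F`. -/
def IsTangentialBlock {α : Type} [Finite α] (F : Type) [Field F] [Fintype F] (k : ℕ)
    (M : Matroid α) : Prop :=
  IsSimpleMatroid M ∧ IsRepresentable F M ∧
    (∃ c, IsCriticalExponent (Fintype.card F) M c ∧ k < c) ∧
    ∀ N : Matroid α, N <m M → N.Loopless → ∃ c, IsCriticalExponent (Fintype.card F) N c ∧ c ≤ k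

/-- `N` is a quotient of `M`: same ground set and every flat of `N` is a flat of `M`. -/
def IsQuotient {α : Type} (N M : Matroid α) : Prop :=
  N.E = M.E ∧ ∀ X, N.IsFlat X → M.IsFlat X

/-- `K` is the cycle matroid of the graph `G`: its elements are the edges of `G` and its
independent sets are the edge sets of forests. -/
def IsCycleMatroid {V : Type} (G : SimpleGraph V) (K : Matroid (Sym2 V)) : Prop :=
  K.E = G.edgeSet ∧ ∀ I ⊆ G.edgeSet, (K.Indep I ↔ (SimpleGraph.fromEdgeSet I).IsAcyclic)

/-- `S` is a simplification of `N`: a simple restriction of `N` meeting every parallel class. -/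
def IsSimplification {α : Type} (S N : Matroid α) : Prop :=
  S ≤r N ∧ IsSimpleMatroid S ∧ ∀ e, N.IsNonloop e → ∃ f ∈ S.E, N.closure {e} = N.closure {f}

/-- Isomorphism of matroids. -/
def IsIsomorphic {α β : Type} (M : Matroid α) (S : Matroid β) : Prop :=
  ∃ φ : α → β, Set.BijOn φ M.E S.E ∧ ∀ I ⊆ M.E, (M.Indep I ↔ S.Indep (φ '' I))

/-- Normal tangential `k`-block over `F`: a tangential `k`-block isomorphic to the simplification
of a quotient of the cycle matroid of the complete graph on `q ^ k + 1` vertices. -/
def IsNormalTangentialBlock {α : Type} [Finite α] (F : Type) [Field F] [Fintype F] (k : ℕ)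
    (M : Matroid α) : Prop :=
  IsTangentialBlock F k M ∧
    ∃ K N S : Matroid (Sym2 (Fin (Fintype.card F ^ k + 1))),
      IsCycleMatroid (⊤ : SimpleGraph (Fin (Fintype.card F ^ k + 1))) K ∧
        IsQuotient N K ∧ IsSimplification S N ∧ IsIsomorphic M S

/-- Modular flats. -/
def IsModularFlat {α : Type} (M : Matroid α) (A : Set α) : Prop :=
  M.IsFlat A ∧ ∀ X, M.IsFlat X → rk M A + rk M X = rk M (A ∪ X) + rk M (A ∩ X)

/-- The lattice of flats has a maximal chain consisting of modular flats. -/
def IsSupersolvable {α : Type} (M : Matroid α) : Prop :=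
  ∃ 𝒞 : Set {A : Set α // M.IsFlat A}, IsMaxChain (· ≤ ·) 𝒞 ∧ ∀ A ∈ 𝒞, IsModularFlat M A.1

end Pool.Agent.MP_dabcc5_co
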